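import Pool.Agent.H.MP_b83b91_an.A

set_option autoImplicit false

namespace Pool.Agent.Results.MP_b83b91_an.No
open Pool.Agent.H.MP_153b2f_an (Etale GG Lam ET main_fdc)
open Pool.Agent.H.MP_b83b91_an

theorem result : ∃ (G : Type) (_ : TopologicalSpace G) (_ : T2Space G) (_ : LocallyCompactSpace G)
    (Γ : Etale G), Principal Γ ∧ Amenable Γ ∧ ¬ FDC Γ :=
  ⟨GG Lam, inferInstance, inferInstance, inferInstance, ET Lam, principal, amenable P1_Lam,
    fun h => main_fdc (fdc_imp _ h)⟩

end Pool.Agent.Results.MP_b83b91_an.No
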